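import Mathlib

set_option autoImplicit false
open Finset

namespace Pool.Agent.Results.MP_d38296_lc.Googol

/-- probability that the rule `a` stops on the value `M`, when `h` has been seen (and passed) and the
second list is still to arrive; `a l` is the probability of stopping on the last entry of the history `l` -/
def win (a : List ℕ → ℝ) (M : ℕ) : List ℕ → List ℕ → ℝ
  | _, [] => 0
  | h, y :: r => a (h ++ [y]) * (if y = M then 1 else 0) + (1 - a (h ++ [y])) * win a M (h ++ [y]) r

/-- winning probability of `a` on the instance `D` -/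
noncomputable def winProb (n N : ℕ) (D : Finset ℕ → ℝ) (a : List ℕ → ℝ) : ℝ :=
  ∑ S ∈ powersetCard n (Icc 1 N), D S *
    ((∑ l ∈ S.toList.permutations.toFinset, win a (S.sup id) [] l) / n.factorial)

noncomputable def L (j : ℕ) (T : Finset ℕ) : Finset (List ℕ) :=
  (powersetCard j T).biUnion fun S => S.toList.permutations.toFinset

lemma mem_perm {S : Finset ℕ} {l : List ℕ} : l ∈ S.toList.permutations.toFinset ↔ l.Nodup ∧ l.toFinset = S := by
  rw [List.mem_toFinset, List.mem_permutations]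
  refine ⟨fun h => ⟨h.nodup_iff.mpr S.nodup_toList, by rw [List.toFinset_eq_of_perm _ _ h, S.toList_toFinset]⟩,
    fun h => List.perm_of_nodup_nodup_toFinset_eq h.1 S.nodup_toList (by rw [h.2, S.toList_toFinset])⟩

lemma mem_L {j : ℕ} {T : Finset ℕ} {l : List ℕ} : l ∈ L j T ↔ l.Nodup ∧ l.length = j ∧ ∀ x ∈ l, x ∈ T := by
  simp only [L, mem_biUnion, mem_powersetCard, mem_perm]
  constructor
  · rintro ⟨_, ⟨h1, h2⟩, h3, rfl⟩
    exact ⟨h3, by rw [← h2, List.toFinset_card_of_nodup h3], fun x hx => h1 (List.mem_toFinset.mpr hx)⟩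
  · rintro ⟨h1, h2, h3⟩
    exact ⟨_, ⟨fun x hx => h3 x (List.mem_toFinset.mp hx), by rw [List.toFinset_card_of_nodup h1, h2]⟩, h1, rfl⟩

lemma sum_L (j : ℕ) (T : Finset ℕ) (F : Finset ℕ → List ℕ → ℝ) :
    ∑ S ∈ powersetCard j T, ∑ l ∈ S.toList.permutations.toFinset, F S l = ∑ l ∈ L j T, F l.toFinset l := by
  rw [L, sum_biUnion]
  · exact sum_congr rfl fun S _ => sum_congr rfl fun l hl => by rw [(mem_perm.mp hl).2]
  · exact fun S _ S' _ h => disjoint_left.mpr fun l h1 h2 =>
      h ((mem_perm.mp h1).2.symm.trans (mem_perm.mp h2).2)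

lemma L_zero (T : Finset ℕ) : L 0 T = {[]} := by
  ext l; simp only [mem_L, mem_singleton, List.length_eq_zero_iff]
  exact ⟨fun h => h.2.1, by rintro rfl; simp⟩

lemma L_succ (j : ℕ) (T : Finset ℕ) (F : List ℕ → ℝ) :
    ∑ l ∈ L (j + 1) T, F l = ∑ y ∈ T, ∑ r ∈ L j (T.erase y), F (y :: r) := by
  rw [sum_sigma']
  symm
  refine sum_bij (fun p _ => p.1 :: p.2) ?_ ?_ ?_ fun _ _ => rfl
  · rintro ⟨y, r⟩ h
    simp only [mem_sigma, mem_L, mem_erase] at h
    simp only [mem_L, List.nodup_cons, List.length_cons, List.mem_cons]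
    refine ⟨⟨fun h1 => (h.2.2.2 y h1).1 rfl, h.2.1⟩, by rw [h.2.2.1], ?_⟩
    rintro x (rfl | hx)
    exacts [h.1, (h.2.2.2 x hx).2]
  · rintro ⟨y, r⟩ _ ⟨y', r'⟩ _ h
    obtain ⟨rfl, rfl⟩ := List.cons.inj h
    rfl
  · rintro (_ | ⟨y, r⟩) h
    · simp [mem_L] at h
    · simp only [mem_L, List.nodup_cons, List.length_cons, List.mem_cons] at h
      refine ⟨⟨y, r⟩, ?_, rfl⟩
      simp only [mem_sigma, mem_L, mem_erase]
      exact ⟨h.2.2 y (.inl rfl), h.1.2, by omega, fun x hx => ⟨by rintro rfl; exact h.1.1 hx, h.2.2 x (.inr hx)⟩⟩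

noncomputable def u (k m : ℕ) : ℝ := 1 / m.descFactorial k

lemma u_nonneg (k m : ℕ) : 0 ≤ u k m := by unfold u; positivity

lemma u_zero {k m : ℕ} (h : m < k) : u k m = 0 := by simp [u, Nat.descFactorial_of_lt h]

lemma u_step {k m c : ℕ} (h : c ≤ m - k) : c * u (k + 1) m ≤ u k m := by
  refine (mul_le_mul_of_nonneg_right (Nat.cast_le.mpr h) (u_nonneg _ _)).trans ?_
  rcases Nat.eq_zero_or_pos (m - k) with h1 | h1
  · simp [h1, u_nonneg]
  · rw [u, u, Nat.descFactorial_succ, Nat.cast_mul, mul_one_div, div_mul_cancel_left₀ (by positivity), one_div]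

lemma u_tel {k m : ℕ} (h : k ≤ m) : k * u (k + 1) (m + 1) = u k m - u k (m + 1) := by
  have h1 : (0 : ℝ) < m.descFactorial k := Nat.cast_pos.mpr (Nat.descFactorial_pos.mpr h)
  have h2 : (0 : ℝ) < (m + 1).descFactorial k := Nat.cast_pos.mpr (Nat.descFactorial_pos.mpr (by omega))
  have h3 : ((m + 1 - k : ℕ) : ℝ) * (m + 1).descFactorial k = (m + 1 : ℕ) * m.descFactorial k := by
    exact_mod_cast Nat.succ_descFactorial m k
  rw [Nat.cast_sub (by omega)] at h3
  rw [u, u, u, Nat.succ_descFactorial_succ]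
  push_cast at *
  field_simp
  linear_combination -h3

lemma u_sum {k m : ℕ} (h : k ≤ m) (N : ℕ) : k * ∑ y ∈ Ioc m N, u (k + 1) y ≤ u k m := by
  rcases le_total m N with h1 | h1
  · have : k * ∑ y ∈ Ioc m N, u (k + 1) y = u k m - u k N := by
      induction N, h1 using Nat.le_induction with
      | base => simp
      | succ N h2 ih => rw [sum_Ioc_succ_top h2, mul_add, ih, u_tel (h.trans h2)]; ring
    linarith [u_nonneg k N]
  · simp [Ioc_eq_empty_of_le h1, u_nonneg]

lemma stop (n M : ℕ) (j : ℕ) : ∀ (k : ℕ) (T : Finset ℕ), k + j = n → #(T.filter (· ≤ M)) ≤ M - k →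
    ∑ r ∈ L j T, (if r.toFinset.sup id ≤ M then u n M else 0) ≤ u k M := by
  induction j with
  | zero => rintro k T rfl _; simp [L_zero]
  | succ j ih =>
    intro k T hk hT
    rw [L_succ]
    refine le_trans (sum_le_sum (g := fun y => if y ≤ M then u (k + 1) M else 0) fun y hy => ?_) ?_
    · split_ifs with h
      · refine le_trans (le_of_eq (sum_congr rfl fun r _ => by simp [h])) (ih (k + 1) (T.erase y) (by omega) ?_)
        rw [filter_erase, card_erase_of_mem (by simp [hy, h])]
        omega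
      · exact le_of_eq (sum_eq_zero fun r _ => by simp [h])
    · rw [← sum_filter, sum_const, nsmul_eq_mul]
      exact u_step hT

noncomputable def G (n : ℕ) : ℕ → ℝ
  | 0 => 0
  | j + 1 => G n j + max 1 (G n j) / (n - (j + 1) : ℕ)

lemma G_nonneg (n j : ℕ) : 0 ≤ G n j := by
  induction j with
  | zero => exact le_rfl
  | succ j ih => unfold G; positivity

def Claim (a : List ℕ → ℝ) (n N j : ℕ) (B : ℕ → ℕ → ℝ) : Prop :=
  ∀ (k : ℕ) (h : List ℕ) (T : Finset ℕ) (μ : ℕ), k + j = n → (∀ y ∈ T, y ≤ N) → μ ∉ T →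
    #(T.filter (· ≤ max μ (n - 1))) ≤ max μ (n - 1) - k →
    ∑ r ∈ L j T, u n (max μ (r.toFinset.sup id)) * win a (max μ (r.toFinset.sup id)) h r ≤ B k (max μ (n - 1))

lemma step {a : List ℕ → ℝ} (ha : ∀ l, a l ∈ Set.Icc (0 : ℝ) 1) {n N j : ℕ} (hj : j < n)
    (ih : Claim a n N j fun k m => G n j * u k m) :
    Claim a n N (j + 1) fun k m => G n j * u k m + max 1 (G n j) * ∑ y ∈ Ioc m N, u (k + 1) y := by
  intro k h T μ hk hN hμ hT
  have g0 := G_nonneg n j
  rw [L_succ]
  refine le_trans (sum_le_sum (g := fun y => (if y ≤ max μ (n - 1) then G n j * u (k + 1) (max μ (n - 1)) else 0) +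
    if y ≤ max μ (n - 1) then 0 else max 1 (G n j) * u (k + 1) y) fun y hy => ?_) ?_
  · obtain ⟨a0, a1⟩ := ha (h ++ [y])
    have hne : μ ≠ y := by rintro rfl; exact hμ hy
    have hc : #((T.erase y).filter (· ≤ max (max μ y) (n - 1))) ≤ max (max μ y) (n - 1) - (k + 1) := by
      by_cases h1 : y ≤ max μ (n - 1)
      · rw [show max (max μ y) (n - 1) = max μ (n - 1) by omega, filter_erase, card_erase_of_mem (mem_filter.mpr ⟨hy, h1⟩)]
        omega
      · refine (card_le_card (t := T.filter (· ≤ max μ (n - 1)) ∪ Ioo (max μ (n - 1)) y) fun x hx => ?_).trans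
          ((card_union_le _ _).trans (by rw [Nat.card_Ioo]; omega))
        simp only [mem_filter, mem_erase, mem_union, mem_Ioo] at hx ⊢
        by_cases h2 : x ≤ max μ (n - 1)
        · exact .inl ⟨hx.1.2, h2⟩
        · omega
    have b1 := ih (k + 1) (h ++ [y]) (T.erase y) (max μ y) (by omega) (fun x hx => hN x (mem_of_mem_erase hx))
      (by rcases max_choice μ y with h | h <;> simp [h, hμ]) hc
    have b2 : ∑ r ∈ L j (T.erase y), u n (max (max μ y) (r.toFinset.sup id)) *
        (if y = max (max μ y) (r.toFinset.sup id) then 1 else 0) ≤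
        if y ≤ max μ (n - 1) then 0 else u (k + 1) y := by
      split_ifs with h1
      · refine le_of_eq (sum_eq_zero fun r _ => ?_)
        split_ifs with h2
        · rw [← h2, u_zero (by omega), zero_mul]
        · exact mul_zero _
      · rw [show max (max μ y) (n - 1) = y by omega] at hc
        refine le_trans (sum_le_sum fun r _ => ?_) (stop n y j (k + 1) _ (by omega) hc)
        split_ifs with h2 h3 h3
        · rw [← h2, mul_one]
        · omega
        · simpa using u_nonneg n y
        · simp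
    have e : ∑ r ∈ L j (T.erase y), u n (max μ ((y :: r).toFinset.sup id)) *
        win a (max μ ((y :: r).toFinset.sup id)) h (y :: r) =
        a (h ++ [y]) * ∑ r ∈ L j (T.erase y), u n (max (max μ y) (r.toFinset.sup id)) *
          (if y = max (max μ y) (r.toFinset.sup id) then 1 else 0) +
        (1 - a (h ++ [y])) * ∑ r ∈ L j (T.erase y), u n (max (max μ y) (r.toFinset.sup id)) *
          win a (max (max μ y) (r.toFinset.sup id)) (h ++ [y]) r := by
      rw [mul_sum, mul_sum, ← sum_add_distrib]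
      refine sum_congr rfl fun r _ => ?_
      rw [win, List.toFinset_cons, sup_insert, id, ← max_assoc]
      ring
    rw [e]
    refine (add_le_add (mul_le_mul_of_nonneg_left b2 a0) (mul_le_mul_of_nonneg_left b1 (sub_nonneg.mpr a1))).trans ?_
    split_ifs with h1
    · rw [show max (max μ y) (n - 1) = max μ (n - 1) by omega]
      nlinarith [mul_nonneg g0 (u_nonneg (k + 1) (max μ (n - 1)))]
    · rw [show max (max μ y) (n - 1) = y by omega]
      have := u_nonneg (k + 1) y
      nlinarith [mul_nonneg (mul_nonneg a0 this) (sub_nonneg.mpr (le_max_left 1 (G n j))),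
        mul_nonneg (mul_nonneg (sub_nonneg.mpr a1) this) (sub_nonneg.mpr (le_max_right 1 (G n j)))]
  · beta_reduce
    rw [sum_add_distrib, ← sum_filter, sum_const, nsmul_eq_mul, mul_left_comm, mul_sum]
    refine add_le_add (mul_le_mul_of_nonneg_left (u_step hT) g0) ?_
    rw [sum_ite, sum_const_zero, zero_add]
    refine sum_le_sum_of_subset_of_nonneg (fun y hy => ?_) fun y _ _ => mul_nonneg (by positivity) (u_nonneg _ _)
    rw [mem_filter] at hy
    exact mem_Ioc.mpr ⟨not_le.mp hy.2, hN y hy.1⟩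

lemma claim {a : List ℕ → ℝ} (ha : ∀ l, a l ∈ Set.Icc (0 : ℝ) 1) (n N j : ℕ) (hj : j < n) :
    Claim a n N j fun k m => G n j * u k m := by
  induction j with
  | zero => intro k h T μ _ _ _ _; simp [L_zero, win, G]
  | succ j ih =>
    intro k h T μ hk h1 h2 h3
    refine (step ha (by omega) (ih (by omega)) k h T μ hk h1 h2 h3).trans ?_
    have h4 := u_sum (show k ≤ max μ (n - 1) by omega) N
    have h5 : (0 : ℝ) < k := Nat.cast_pos.mpr (by omega)
    beta_reduce
    rw [G, show n - (j + 1) = k by omega, add_mul, div_mul_eq_mul_div, mul_div_assoc]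
    gcongr
    rwa [le_div_iff₀' h5]

lemma G_le (n j : ℕ) (hj : j < n) : (G n j ≤ 1 → G n j ≤ 1 / (n - j : ℕ) + Real.log (n / (n - j : ℕ))) ∧
    (n - j : ℕ) * G n j ≤ 1 + n * Real.exp (-1) := by
  induction j with
  | zero => simp [G, Nat.pos_iff_ne_zero.mp hj]; positivity
  | succ j ih =>
    obtain ⟨h1, h2⟩ := ih (by omega)
    obtain ⟨k, hk⟩ : ∃ k, n - (j + 1) = k + 1 := ⟨n - (j + 2), by omega⟩
    have hn : (0 : ℝ) < n := Nat.cast_pos.mpr (by omega)
    rw [show n - j = k + 2 by omega] at h1 h2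
    rw [G, hk]
    push_cast at *
    rcases le_or_gt (G n j) 1 with h | h
    · have h3 := h1 h
      have h4 := Real.log_le_sub_one_of_pos (show (0 : ℝ) < (k + 1) / (k + 2) by positivity)
      have h5 := Real.log_le_sub_one_of_pos (show (0 : ℝ) < n / (k + 1) * Real.exp (-1) by positivity)
      rw [Real.log_mul (by positivity) (by positivity), Real.log_exp] at h5
      rw [Real.log_div (by positivity) (by positivity)] at h3 h4
      have h6 : ((k : ℝ) + 1) / (k + 2) - 1 = -(1 / (k + 2)) := by field_simp; ring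
      have h7 : G n j + 1 / (k + 1) ≤ 1 / (k + 1) + Real.log (n / (k + 1)) := by
        rw [Real.log_div (by positivity) (by positivity)]; linarith
      rw [max_eq_left h]
      refine ⟨fun _ => h7, (mul_le_mul_of_nonneg_left (h7.trans (add_le_add_right
        (show _ ≤ n / (k + 1) * Real.exp (-1) by linarith) _)) (by positivity)).trans (le_of_eq ?_)⟩
      field_simp
    · rw [max_eq_right h.le]
      refine ⟨fun h3 => absurd h3 (not_le.mpr (lt_add_of_lt_of_nonneg h (by positivity))), le_trans (le_of_eq ?_) h2⟩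
      field_simp
      ring

lemma card_L (j : ℕ) : ∀ T : Finset ℕ, (#(L j T) : ℝ) = (#T).descFactorial j := by
  induction j with
  | zero => simp [L_zero]
  | succ j ih =>
    intro T
    rw [card_eq_sum_ones, Nat.cast_sum, L_succ j T fun _ => ((1 : ℕ) : ℝ)]
    rw [sum_congr rfl fun y hy => by rw [sum_const, nsmul_eq_mul, ih, card_erase_of_mem hy], sum_const]
    rcases h : #T with _ | t
    · simp
    · rw [Nat.succ_descFactorial_succ]; simp

lemma total (n N : ℕ) (hn : 0 < n) :
    ∑ l ∈ L n (Icc 1 N), u n (l.toFinset.sup id) = n * ∑ y ∈ Ioc (n - 1) N, u 1 y := by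
  induction N with
  | zero =>
    obtain ⟨n, rfl⟩ := Nat.exists_eq_succ_of_ne_zero hn.ne'
    simp [L_succ]
  | succ N ih =>
    have hs : L n (Icc 1 N) ⊆ L n (Icc 1 (N + 1)) := fun l hl => by
      rw [mem_L] at *
      exact ⟨hl.1, hl.2.1, fun x hx => Icc_subset_Icc_right (by omega) (hl.2.2 x hx)⟩
    have he : ∀ l ∈ L n (Icc 1 (N + 1)) \ L n (Icc 1 N), u n (l.toFinset.sup id) = u n (N + 1) := by
      intro l hl
      simp only [mem_sdiff, mem_L, mem_Icc] at hl
      congr 1
      refine le_antisymm (Finset.sup_le fun x hx => (hl.1.2.2 x (List.mem_toFinset.mp hx)).2) ?_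
      by_contra h
      refine hl.2 ⟨hl.1.1, hl.1.2.1, fun x hx => ⟨(hl.1.2.2 x hx).1, ?_⟩⟩
      have := le_sup (f := id) (List.mem_toFinset.mpr hx)
      simp only [id] at this h
      omega
    rw [← sum_sdiff hs, ih, sum_congr rfl he, sum_const, nsmul_eq_mul, cast_card_sdiff hs, card_L, card_L]
    simp only [Nat.card_Icc, Nat.add_sub_cancel]
    rcases le_or_gt (n - 1) N with h | h
    · have h2 : (0 : ℝ) < (N + 1).descFactorial n := Nat.cast_pos.mpr (Nat.descFactorial_pos.mpr (by omega))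
      have h3 : ((N + 1 - n : ℕ) : ℝ) * (N + 1).descFactorial n = (N + 1 : ℕ) * N.descFactorial n := by
        exact_mod_cast Nat.succ_descFactorial N n
      rw [Nat.cast_sub (by omega)] at h3
      rw [sum_Ioc_succ_top h, mul_add, add_comm, u, u, Nat.descFactorial_one]
      congr 1
      push_cast at *
      field_simp
      linear_combination h3
    · rw [u_zero (by omega), Ioc_eq_empty_of_le (show N + 1 ≤ n - 1 from h), Ioc_eq_empty_of_le h.le]; simp

lemma harm (m N : ℕ) (h : m ≤ N) : Real.log (N + 1) - Real.log (m + 1) ≤ ∑ y ∈ Ioc m N, u 1 y := by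
  induction N, h using Nat.le_induction with
  | base => simp
  | succ N h ih =>
    have h4 := Real.log_le_sub_one_of_pos (show (0 : ℝ) < (N + 1 + 1) / (N + 1) by positivity)
    rw [Real.log_div (by positivity) (by positivity)] at h4
    have : ((N : ℝ) + 1 + 1) / (N + 1) - 1 = 1 / (N + 1) := by field_simp; ring
    rw [sum_Ioc_succ_top h, u, Nat.descFactorial_one]
    push_cast
    linarith

theorem result (ε : ℝ) (hε : 0 < ε) : ∃ n₀ : ℕ, ∀ n ≥ n₀, ∃ D : Finset ℕ → ℝ, (∀ S, 0 ≤ D S) ∧
    ∑ S ∈ powersetCard n (Icc 1 (n ^ 2)), D S = 1 ∧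
    ∀ a : List ℕ → ℝ, (∀ l, a l ∈ Set.Icc (0 : ℝ) 1) → winProb n (n ^ 2) D a ≤ Real.exp (-1) + ε := by
  have ht : Filter.Tendsto (fun n : ℕ => (1 / (n : ℝ) + Real.exp (-1)) * (1 / Real.log n + 1)) Filter.atTop
      (nhds ((0 + Real.exp (-1)) * (0 + 1))) :=
    (tendsto_one_div_atTop_nhds_zero_nat.add_const _).mul ((tendsto_const_nhds.div_atTop
      (Real.tendsto_log_atTop.comp tendsto_natCast_atTop_atTop)).add_const _)
  obtain ⟨n₀, h0⟩ := Filter.eventually_atTop.mp (ht.eventually_le_const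
    (show _ < Real.exp (-1) + ε by linarith))
  refine ⟨max n₀ 2, fun n hn => ?_⟩
  obtain ⟨n, rfl⟩ : ∃ k, n = k + 1 := ⟨n - 1, by omega⟩
  have h1 := h0 _ (le_of_max_le_left hn)
  have n1 : (1 : ℝ) ≤ n := by exact_mod_cast (by omega : 1 ≤ n)
  have h2 := total (n + 1) ((n + 1) ^ 2) n.succ_pos
  have h3 := harm n ((n + 1) ^ 2) (by nlinarith)
  have h4 : Real.log ((n + 1) ^ 2) ≤ Real.log (((n + 1) ^ 2 : ℕ) + 1) := by push_cast; gcongr; linarith
  have h5 : 0 < Real.log (n + 1) := Real.log_pos (by linarith)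
  rw [Real.log_pow] at h4
  rw [Nat.add_sub_cancel] at h2
  push_cast at h1 h2 h3 h4
  set H := ∑ y ∈ Ioc n ((n + 1) ^ 2), u 1 y
  have h6 : Real.log (n + 1) ≤ H := by linarith
  have hH := h5.trans_le h6
  refine ⟨fun S => (n + 1).factorial * u (n + 1) (S.sup id) / ((n + 1) * H),
    fun S => div_nonneg (mul_nonneg (by positivity) (u_nonneg _ _)) (by positivity), ?_, fun a ha => ?_⟩
  · rw [← sum_div, div_eq_one_iff_eq (by positivity), ← h2, ← sum_L _ _ fun S _ => u (n + 1) (S.sup id)]
    refine sum_congr rfl fun S hS => ?_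
    rw [sum_const, List.toFinset_card_of_nodup (List.nodup_permutations _ S.nodup_toList),
      List.length_permutations, length_toList, (mem_powersetCard.mp hS).2, nsmul_eq_mul]
  · have h7 := step ha n.lt_succ_self (claim ha (n + 1) ((n + 1) ^ 2) n n.lt_succ_self) 0 [] (Icc 1 ((n + 1) ^ 2)) 0
      (by simp) (fun y hy => (mem_Icc.mp hy).2) (by simp) ((card_le_card (t := Icc 1 n) fun x hx => by
        simp only [mem_filter, mem_Icc] at *; omega).trans (by simp))
    have h8 := (G_le (n + 1) n n.lt_succ_self).2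
    simp only [Nat.zero_max, Nat.succ_eq_add_one, Nat.add_sub_cancel, zero_add, Nat.add_sub_cancel_left] at h7 h8
    have e : winProb (n + 1) ((n + 1) ^ 2)
        (fun S => (n + 1).factorial * u (n + 1) (S.sup id) / ((n + 1) * H)) a =
        (∑ l ∈ L (n + 1) (Icc 1 ((n + 1) ^ 2)), u (n + 1) (l.toFinset.sup id) *
          win a (l.toFinset.sup id) [] l) / ((n + 1) * H) := by
      rw [← sum_L _ _ fun S l => u (n + 1) (S.sup id) * win a (S.sup id) [] l, winProb, sum_div]
      refine sum_congr rfl fun S _ => ?_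
      rw [← mul_sum]
      field_simp
    have h9 : max 1 (G (n + 1) n) ≤ 1 + (n + 1) * Real.exp (-1) :=
      max_le (le_add_of_nonneg_right (by positivity)) (by simpa using h8)
    rw [e]
    refine le_trans ?_ h1
    calc _ ≤ ((1 + (n + 1) * Real.exp (-1)) + (1 + (n + 1) * Real.exp (-1)) * H) / ((n + 1) * H) := by
          gcongr
          refine h7.trans (add_le_add ?_ (by gcongr))
          simpa [u] using (le_max_right _ _).trans h9
      _ = (1 / (n + 1) + Real.exp (-1)) * (1 / H + 1) := by field_simp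
      _ ≤ _ := by gcongr

end Pool.Agent.Results.MP_d38296_lc.Googol
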